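import Pool.Agent.H44.SQ.Fin

/-!
# The size of `t_n` for almost all `n` (MP_51b47a_nt)

`t n` is the least `t > 0` such that some nonempty set `S ⊆ {n+1, …, n+t}` makes `n ∏_{a ∈ S} a` a
square; `P n` is the largest prime factor of `n`.
-/

set_option autoImplicit false
open Filter
open scoped Classical

namespace Pool.Agent.Results.MP_51b47a_nt.AlmostAll

/-- the largest prime factor of `n` (`0` for `n = 1`) -/
def P (n : ℕ) : ℕ := n.primeFactors.sup id

/-- `t_n` -/
noncomputable def t (n : ℕ) : ℕ :=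
  sInf {t : ℕ | 0 < t ∧ ∃ S : Finset ℕ, S.Nonempty ∧ S ⊆ Finset.Icc (n + 1) (n + t) ∧
    IsSquare (n * ∏ a ∈ S, a)}

/-- the number of `n` with `2 ≤ n ≤ N` which satisfy `A` -/
noncomputable def count (N : ℕ) (A : ℕ → Prop) : ℕ := ((Finset.Icc 2 N).filter A).card

theorem mem_count (N : ℕ) (A : ℕ → Prop) (X : Finset ℕ)
    (h : ∀ n, 2 ≤ n → n ≤ N → (A n ↔ n ∈ X)) (h' : ∀ n ∈ X, 2 ≤ n ∧ n ≤ N) :
    count N A = X.card := by
  unfold count
  congr 1
  ext n
  rw [Finset.mem_filter, Finset.mem_Icc]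
  constructor
  · rintro ⟨⟨h1, h2⟩, h3⟩
    exact (h n h1 h2).mp h3
  · intro h3
    obtain ⟨h1, h2⟩ := h' n h3
    exact ⟨⟨h1, h2⟩, (h n h1 h2).mpr h3⟩

theorem count_le (N : ℕ) (A : ℕ → Prop) (X : Finset ℕ)
    (h : ∀ n, 2 ≤ n → n ≤ N → A n → n ∈ X) : count N A ≤ X.card := by
  unfold count
  apply Finset.card_le_card
  intro n hn
  rw [Finset.mem_filter, Finset.mem_Icc] at hn
  exact h n hn.1.1 hn.1.2 hn.2

theorem result :
    (∀ n : ℕ, 2 ≤ n → ¬ P n ^ 2 ∣ n → P n ≤ t n) ∧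
    (∃ C : ℝ, 0 < C ∧
      -- `t_n ≤ K P(n)` up to a proportion `O((1 + log K) / K)`
      (∀ K N : ℕ, 1 ≤ K → 1 ≤ N →
        (count N (fun n => K * P n < t n) : ℝ) ≤ C * (N * ((1 + Real.log K) / K))) ∧
      -- `P(n) ≤ t_n` for almost all `n`
      (∀ N : ℕ, 3 ≤ N →
        (count N (fun n => t n < P n) : ℝ) ≤
          C * (N * ((1 + Real.log (Real.log N)) / Real.log N)))) ∧
    -- the normal order: `P(n) ≤ t_n ≤ ω(n) P(n)` for almost all `n`, for every `ω(n) → ∞`
    (∀ ω : ℕ → ℝ, Tendsto ω atTop atTop →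
      Tendsto (fun N : ℕ =>
        (count N (fun n => ¬ (P n ≤ t n ∧ (t n : ℝ) ≤ ω n * P n)) : ℝ) / N) atTop (nhds 0)) := by
  obtain ⟨C, hC, hb⟩ := Pool.Agent.H44.SQ.bad_bound
  obtain ⟨C', hC', hl⟩ := Pool.Agent.H44.SQ.low_bound
  refine ⟨fun n hn h => Pool.Agent.H44.SQ.P_le_tt hn h,
    ⟨max C C', lt_max_of_lt_left hC, fun K N hK hN => ?_, fun N hN => ?_⟩,
    fun ω hω => ?_⟩
  rotate_right
  · refine (Pool.Agent.H44.SQ.dens ω hω).congr fun N => ?_
    congr 2
    symm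
    apply mem_count
    · intro n h1 h2
      rw [Finset.mem_filter, Finset.mem_Icc]
      exact ⟨fun h => ⟨⟨h1, h2⟩, h⟩, fun h => h.2⟩
    · intro n hn
      rw [Finset.mem_filter, Finset.mem_Icc] at hn
      exact hn.1
  · have e : count N (fun n => K * P n < t n) = (Pool.Agent.H44.SQ.Bad K N).card := by
      apply mem_count
      · intro n h1 h2
        unfold Pool.Agent.H44.SQ.Bad
        rw [Finset.mem_filter, Finset.mem_Icc]
        exact ⟨fun h => ⟨⟨h1, h2⟩, h⟩, fun h => h.2⟩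
      · intro n hn
        unfold Pool.Agent.H44.SQ.Bad at hn
        rw [Finset.mem_filter, Finset.mem_Icc] at hn
        exact hn.1
    rw [e]
    refine (hb K N hK hN).trans ?_
    apply mul_le_mul_of_nonneg_right (le_max_left _ _)
    have h1 : 0 ≤ Real.log K := Real.log_nonneg (by exact_mod_cast hK)
    positivity
  · have h0 : (count N (fun n => t n < P n) : ℝ) ≤
        (((Finset.Icc 2 N).filter
          (fun n => Pool.Agent.H44.SQ.P n ^ 2 ∣ n)).card : ℝ) := by
      have h1 : count N (fun n => t n < P n) ≤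
          ((Finset.Icc 2 N).filter (fun n => Pool.Agent.H44.SQ.P n ^ 2 ∣ n)).card := by
        apply count_le
        intro n h1 h2 h3
        refine Finset.mem_filter.mpr ⟨Finset.mem_Icc.mpr ⟨h1, h2⟩, ?_⟩
        by_contra hc
        exact absurd (Pool.Agent.H44.SQ.P_le_tt h1 hc) (not_le.mpr h3)
      exact_mod_cast h1
    refine (h0.trans (hl N hN)).trans ?_
    apply mul_le_mul_of_nonneg_right (le_max_right _ _)
    have hlog1 : 1 ≤ Real.log N := by
      rw [Real.le_log_iff_exp_le (by exact_mod_cast (by omega : 0 < N))]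
      have h1 := Real.exp_one_lt_d9
      have h2 : (3 : ℝ) ≤ N := by exact_mod_cast hN
      linarith
    have hll : 0 ≤ Real.log (Real.log N) := Real.log_nonneg hlog1
    positivity

end Pool.Agent.Results.MP_51b47a_nt.AlmostAll
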